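import Pool.Agent.R515.SH.Bar

/-!
A quartic with roots in convex position and a critical point in the interior of its shadow.
-/

set_option autoImplicit false

namespace Pool.Agent.Results.MP_d2a4c3_an.InteriorCriticalPoint

open Polynomial Set ComplexConjugate
open Pool.Agent.R515.SH

/-- The shadow of `P`: the closure of the set of all roots of all the derivatives of order
`m ≤ n deg P` of the powers `P ^ n`, `n ≥ 1`. -/
def shadow (P : ℂ[X]) : Set ℂ :=
  closure {z | ∃ n m : ℕ, 1 ≤ n ∧ m ≤ n * P.natDegree ∧ (derivative^[m] (P ^ n)).IsRoot z}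

/-- The roots of `P` are distinct and none of them lies in the convex hull of the others. -/
def ConvexPosition (P : ℂ[X]) : Prop :=
  P.roots.Nodup ∧ ∀ z, P.IsRoot z → z ∉ convexHull ℝ ({w | P.IsRoot w} \ {z})

/-- The roots of `P` are the vertices of a regular polygon: `c + w ζ`, `ζ ^ deg P = 1`. -/
def RegularPolygon (P : ℂ[X]) : Prop :=
  ∃ c w : ℂ, w ≠ 0 ∧ {z | P.IsRoot z} = {z | ∃ ζ : ℂ, ζ ^ P.natDegree = 1 ∧ z = c + w * ζ}

lemma Q_conj (n m : ℕ) (z : ℂ) : (Q n m).eval (conj z) = conj ((Q n m).eval z) := by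
  have hmap : (Q n m).map (starRingEnd ℂ) = Q n m := by
    unfold Q
    rw [← iterate_derivative_map, Polynomial.map_pow]
    congr 2
    unfold PP
    simp [Complex.conj_ofNat]
  conv_lhs => rw [← hmap]
  rw [eval_map_apply]

lemma ball_subset : Metric.ball (1 : ℂ) (1 / 10) ⊆ shadow PP := by
  intro z hz
  by_contra hcon
  have hopen : IsOpen ((shadow PP)ᶜ ∩ Metric.ball (1 : ℂ) (1 / 10)) :=
    isClosed_closure.isOpen_compl.inter Metric.isOpen_ball
  obtain ⟨ε, hε, hball⟩ := Metric.isOpen_iff.mp hopen z ⟨hcon, hz⟩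
  have hroot : ∀ n m, 1 ≤ n → m ≤ 4 * n → ∀ u, dist u z < ε → (Q n m).eval u ≠ 0 := by
    intro n m hn hm u hu h0
    have h1 := (hball (Metric.mem_ball.mpr hu)).1
    apply h1
    apply subset_closure
    refine ⟨n, m, hn, ?_, h0⟩
    rw [PP_natDegree]; omega
  rcases le_or_gt 0 z.im with him | him
  · -- move up
    set z0 : ℂ := z + (ε / 2 : ℝ) * Complex.I with hz0
    have hd : dist z0 z = ε / 2 := by
      rw [dist_eq_norm, hz0, add_sub_cancel_left, norm_mul, Complex.norm_I, mul_one,
        Complex.norm_real, Real.norm_of_nonneg (by positivity)]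
    have hmem := (hball (Metric.mem_ball.mpr (by rw [hd]; linarith : dist z0 z < ε))).2
    rw [Metric.mem_ball, dist_eq_norm] at hmem
    have him0 : 0 < z0.im := by
      rw [hz0]
      simp
      linarith
    refine no_disc hmem him0 (r := ε / 4) (by linarith) ?_
    intro n m hn hm u hu
    apply hroot n m hn hm u
    have := dist_triangle u z0 z
    linarith
  · -- reflect
    have hmem : ‖conj z - 1‖ < 1 / 10 := by
      rw [Metric.mem_ball, dist_eq_norm] at hz
      rw [show conj z - 1 = conj (z - 1) by simp, Complex.norm_conj]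
      exact hz
    refine no_disc hmem (by simpa using him) (r := ε / 2) (by linarith) ?_
    intro n m hn hm u hu h0
    apply hroot n m hn hm (conj u)
    · rw [dist_eq_norm, ← Complex.norm_conj]
      rw [dist_eq_norm] at hu
      rw [show conj (conj u - z) = u - conj z by simp]
      linarith
    · rw [Q_conj, h0, map_zero]

/-- the factorisation -/
lemma root_iff (z : ℂ) : PP.IsRoot z ↔ (z = ⟨-6, Real.sqrt 28⟩ ∨ z = ⟨-6, -Real.sqrt 28⟩) ∨
    (z = ⟨6, Real.sqrt 30⟩ ∨ z = ⟨6, -Real.sqrt 30⟩) := by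
  have h28 : Real.sqrt 28 * Real.sqrt 28 = 28 := Real.mul_self_sqrt (by norm_num)
  have h30 : Real.sqrt 30 * Real.sqrt 30 = 30 := Real.mul_self_sqrt (by norm_num)
  have e1 : (z - ⟨-6, Real.sqrt 28⟩) * (z - ⟨-6, -Real.sqrt 28⟩) = z ^ 2 + 12 * z + 64 := by
    apply Complex.ext
    · simp [pow_succ, Complex.mul_re, Complex.mul_im]; linarith
    · simp [pow_succ, Complex.mul_re, Complex.mul_im]; ring
  have e2 : (z - ⟨6, Real.sqrt 30⟩) * (z - ⟨6, -Real.sqrt 30⟩) = z ^ 2 - 12 * z + 66 := by
    apply Complex.ext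
    · simp [pow_succ, Complex.mul_re, Complex.mul_im]; linarith
    · simp [pow_succ, Complex.mul_re, Complex.mul_im]; ring
  have e3 : PP.eval z = ((z - ⟨-6, Real.sqrt 28⟩) * (z - ⟨-6, -Real.sqrt 28⟩)) *
      ((z - ⟨6, Real.sqrt 30⟩) * (z - ⟨6, -Real.sqrt 30⟩)) := by
    rw [e1, e2]
    unfold PP
    simp
    ring
  rw [IsRoot.def, e3, mul_eq_zero, mul_eq_zero, mul_eq_zero, sub_eq_zero, sub_eq_zero,
    sub_eq_zero, sub_eq_zero]

lemma sqrt_bounds : 5 < Real.sqrt 28 ∧ Real.sqrt 28 < 6 ∧ 5 < Real.sqrt 30 ∧ Real.sqrt 30 < 6 := by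
  refine ⟨?_, ?_, ?_, ?_⟩
  · exact Real.lt_sqrt_of_sq_lt (by norm_num)
  · rw [Real.sqrt_lt' (by norm_num)]; norm_num
  · exact Real.lt_sqrt_of_sq_lt (by norm_num)
  · rw [Real.sqrt_lt' (by norm_num)]; norm_num

lemma convexPosition : ConvexPosition PP := by
  obtain ⟨b1, b2, b3, b4⟩ := sqrt_bounds
  constructor
  · rw [Multiset.nodup_iff_count_le_one]
    intro z
    rw [count_roots]
    by_contra hcon
    push Not at hcon
    rw [one_lt_rootMultiplicity_iff_isRoot PP_monic.ne_zero] at hcon
    obtain ⟨h2, h1⟩ := hcon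
    have h3 : (z - 1) * (z - 2) * (z + 3) = 0 := by
      have : eval z (derivative PP) = 4 * ((z - 1) * (z - 2) * (z + 3)) := by
        unfold PP
        simp
        ring
      rw [IsRoot.def, this] at h1
      rcases mul_eq_zero.mp h1 with h | h
      · norm_num at h
      · exact h
    have him : z.im = 0 := by
      rcases mul_eq_zero.mp h3 with h | h
      · rcases mul_eq_zero.mp h with h | h
        · rw [sub_eq_zero.mp h]; simp
        · rw [sub_eq_zero.mp h]; simp
      · rw [eq_neg_of_add_eq_zero_left h]; simp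
    rcases (root_iff z).mp h2 with (h | h) | (h | h)
    all_goals (rw [h] at him; simp only at him; linarith)
  · intro z hz hmem
    -- a separating functional
    have key : ∀ a b : ℝ, 6 < a * z.re + b * z.im →
        (∀ w, PP.IsRoot w → w ≠ z → a * w.re + b * w.im < 6) → False := by
      intro a b h1 h2
      have hconv : Convex ℝ {w : ℂ | a * w.re + b * w.im < 6} := by
        apply convex_halfSpace_lt
        exact ((a • Complex.reLm + b • Complex.imLm : ℂ →ₗ[ℝ] ℝ)).isLinear
      have h3 := convexHull_min (s := {w | PP.IsRoot w} \ {z}) (fun w hw => h2 w hw.1 hw.2) hconv hmem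
      have h4 : a * z.re + b * z.im < 6 := h3
      linarith
    rcases (root_iff z).mp hz with (h | h) | (h | h)
    · apply key (-1) 1
      · rw [h]; simp <;> linarith
      · intro w hw hne
        rcases (root_iff w).mp hw with (h' | h') | (h' | h')
        · exact absurd (h'.trans h.symm) hne
        all_goals (rw [h']; simp <;> linarith)
    · apply key (-1) (-1)
      · rw [h]; simp <;> linarith
      · intro w hw hne
        rcases (root_iff w).mp hw with (h' | h') | (h' | h')
        · rw [h']; simp <;> linarith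
        · exact absurd (h'.trans h.symm) hne
        all_goals (rw [h']; simp <;> linarith)
    · apply key 1 1
      · rw [h]; simp <;> linarith
      · intro w hw hne
        rcases (root_iff w).mp hw with (h' | h') | (h' | h')
        · rw [h']; simp <;> linarith
        · rw [h']; simp <;> linarith
        · exact absurd (h'.trans h.symm) hne
        · rw [h']; simp <;> linarith
    · apply key 1 (-1)
      · rw [h]; simp <;> linarith
      · intro w hw hne
        rcases (root_iff w).mp hw with (h' | h') | (h' | h')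
        · rw [h']; simp <;> linarith
        · rw [h']; simp <;> linarith
        · rw [h']; simp <;> linarith
        · exact absurd (h'.trans h.symm) hne

lemma cubic {A B C' D a b c d : ℂ} (hab : a ≠ b) (hac : a ≠ c) (had : a ≠ d) (hbc : b ≠ c)
    (hbd : b ≠ d) (hcd : c ≠ d) (ha : A * a ^ 3 + B * a ^ 2 + C' * a + D = 0)
    (hb : A * b ^ 3 + B * b ^ 2 + C' * b + D = 0) (hc : A * c ^ 3 + B * c ^ 2 + C' * c + D = 0)
    (hd : A * d ^ 3 + B * d ^ 2 + C' * d + D = 0) : A = 0 ∧ B = 0 := by
  have e1 : A * (a ^ 2 + a * b + b ^ 2) + B * (a + b) + C' = 0 := by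
    apply mul_left_cancel₀ (sub_ne_zero.mpr hab)
    linear_combination ha - hb
  have e2 : A * (a ^ 2 + a * c + c ^ 2) + B * (a + c) + C' = 0 := by
    apply mul_left_cancel₀ (sub_ne_zero.mpr hac)
    linear_combination ha - hc
  have e3 : A * (a ^ 2 + a * d + d ^ 2) + B * (a + d) + C' = 0 := by
    apply mul_left_cancel₀ (sub_ne_zero.mpr had)
    linear_combination ha - hd
  have e4 : A * (a + b + c) + B = 0 := by
    apply mul_left_cancel₀ (sub_ne_zero.mpr hbc)
    linear_combination e1 - e2
  have e5 : A * (a + b + d) + B = 0 := by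
    apply mul_left_cancel₀ (sub_ne_zero.mpr hbd)
    linear_combination e1 - e3
  have e6 : A = 0 := by
    apply mul_left_cancel₀ (sub_ne_zero.mpr hcd)
    linear_combination e4 - e5
  refine ⟨e6, ?_⟩
  rw [e6] at e4
  linear_combination e4

lemma not_regular : ¬ RegularPolygon PP := by
  rintro ⟨c, w, -, hroots⟩
  rw [PP_natDegree] at hroots
  have h4 : ∀ z, PP.IsRoot z → (z - c) ^ 4 = w ^ 4 := by
    intro z hz
    have : z ∈ {z | PP.IsRoot z} := hz
    rw [hroots] at this
    obtain ⟨ζ, h1, h2⟩ := this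
    rw [h2, add_sub_cancel_left, mul_pow, h1, mul_one]
  have h5 : ∀ z, PP.IsRoot z →
      (-4 * c) * z ^ 3 + (6 * c ^ 2 + 14) * z ^ 2 + (-4 * c ^ 3 - 24) * z +
        (c ^ 4 - 4224 - w ^ 4) = 0 := by
    intro z hz
    have h6 := h4 z hz
    have h7 : z ^ 4 - 14 * z ^ 2 + 24 * z + 4224 = 0 := by
      have := hz
      rw [IsRoot.def] at this
      unfold PP at this
      simpa using this
    linear_combination h6 - h7
  obtain ⟨b1, b2, b3, b4⟩ := sqrt_bounds
  have hne : ∀ x y x' y' : ℝ, x ≠ x' ∨ y ≠ y' → (⟨x, y⟩ : ℂ) ≠ ⟨x', y'⟩ := by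
    intro x y x' y' h heq
    rcases h with h | h
    · exact h (congrArg Complex.re heq)
    · exact h (congrArg Complex.im heq)
  obtain ⟨h6, h7⟩ := cubic (hne _ _ _ _ (Or.inr (by linarith)))
    (hne _ _ _ _ (Or.inl (by norm_num))) (hne _ _ _ _ (Or.inl (by norm_num)))
    (hne _ _ _ _ (Or.inl (by norm_num))) (hne _ _ _ _ (Or.inl (by norm_num)))
    (hne _ _ _ _ (Or.inr (by linarith)))
    (h5 _ ((root_iff _).mpr (Or.inl (Or.inl rfl)))) (h5 _ ((root_iff _).mpr (Or.inl (Or.inr rfl))))
    (h5 _ ((root_iff _).mpr (Or.inr (Or.inl rfl)))) (h5 _ ((root_iff _).mpr (Or.inr (Or.inr rfl))))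
  have h8 : c = 0 := by linear_combination (-1 / 4 : ℂ) * h6
  rw [h8] at h7
  norm_num at h7

/-- **Answer to the question: no.** The critical point `1` of the quartic
`X ^ 4 - 14 X ^ 2 + 24 X + 4224`, whose roots are in convex position and are not the vertices of a
regular polygon, lies in the interior of its shadow. -/
theorem result : ∃ P : ℂ[X], P.natDegree = 4 ∧ ConvexPosition P ∧ ¬ RegularPolygon P ∧
    (derivative P).IsRoot 1 ∧ Metric.ball (1 : ℂ) (1 / 10) ⊆ shadow P := by
  refine ⟨PP, PP_natDegree, convexPosition, not_regular, ?_, ball_subset⟩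
  unfold PP
  rw [IsRoot.def]
  simp
  norm_num

end Pool.Agent.Results.MP_d2a4c3_an.InteriorCriticalPoint
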